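import Mathlib

/-! SW (MP_540de1_nt): the residue classes in the Siegel-Walfisz theorem for squarefree palindromes. -/

namespace Pool.Agent.Helper32.SW

theorem sw6 (q a d : ℕ) (_hq : q.Coprime 10) (ha : a.Coprime q) (_hd : d.Coprime 10) (_hd0 : 0 < d) :
    (d.Coprime q → ∃ r : ℕ, ∀ P : ℕ, (P ≡ a [MOD q] ∧ d ^ 2 ∣ P) ↔ P ≡ r [MOD q * d ^ 2]) ∧
    (¬ d.Coprime q → ∀ P : ℕ, ¬ (P ≡ a [MOD q] ∧ d ^ 2 ∣ P)) := by
  constructor
  · intro hdq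
    have hco : q.Coprime (d ^ 2) := (Nat.Coprime.pow_left 2 hdq).symm
    obtain ⟨r, hr1, hr2⟩ := Nat.chineseRemainder hco a 0
    refine ⟨r, fun P => ?_⟩
    constructor
    · rintro ⟨h1, h2⟩
      have h3 : P ≡ 0 [MOD d ^ 2] := (Nat.modEq_zero_iff_dvd).2 h2
      exact (Nat.modEq_and_modEq_iff_modEq_mul hco).1 ⟨h1.trans hr1.symm, h3.trans hr2.symm⟩
    · intro h
      have h5 := (Nat.modEq_and_modEq_iff_modEq_mul hco).2 h
      exact ⟨h5.1.trans hr1, (Nat.modEq_zero_iff_dvd).1 (h5.2.trans hr2)⟩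
  · intro hdq P hP
    obtain ⟨p, hp, hpd, hpq⟩ := Nat.Prime.not_coprime_iff_dvd.1 hdq
    have hpP : p ∣ P := (hpd.trans (dvd_pow_self d two_ne_zero)).trans hP.2
    have hpa : p ∣ a := (hP.1.dvd_iff hpq).1 hpP
    have h1 : p ∣ 1 := by
      rw [← ha]
      exact Nat.dvd_gcd hpa hpq
    exact hp.one_lt.ne' (Nat.dvd_one.1 h1)

end Pool.Agent.Helper32.SW
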