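import Pool.Agent.Helper10.SQ.C3

/-! SW (MP_540de1_nt): the main term in the Siegel-Walfisz theorem for squarefree palindromes. -/

namespace Pool.Agent.Helper32.SW

open Finset Filter Topology ArithmeticFunction
open scoped ArithmeticFunction.Moebius

/-- the summand -/
noncomputable def mf (q d : ℕ) : ℝ := if d.Coprime (10 * q) then (μ d : ℝ) / (d : ℝ) ^ 2 else 0

lemma mf_one (q : ℕ) : mf q 1 = 1 := by
  unfold mf
  simp

lemma mf_zero (q : ℕ) : mf q 0 = 0 := by
  unfold mf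
  simp

lemma mf_mul (q : ℕ) {m n : ℕ} (h : m.Coprime n) : mf q (m * n) = mf q m * mf q n := by
  unfold mf
  by_cases hm : m.Coprime (10 * q)
  · by_cases hn : n.Coprime (10 * q)
    · rw [if_pos hm, if_pos hn, if_pos (Nat.Coprime.mul_left hm hn),
        ArithmeticFunction.isMultiplicative_moebius.map_mul_of_coprime h]
      push_cast
      rw [mul_pow, mul_div_mul_comm]
    · rw [if_neg hn, mul_zero, if_neg]
      intro h'
      exact hn (Nat.Coprime.coprime_dvd_left (Dvd.intro_left m rfl) h')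
  · rw [if_neg hm, zero_mul, if_neg]
    intro h'
    exact hm (Nat.Coprime.coprime_dvd_left (Dvd.intro n rfl) h')

lemma mf_abs (q d : ℕ) : |mf q d| ≤ ((d : ℝ) ^ 2)⁻¹ := by
  unfold mf
  split_ifs
  · rw [abs_div, abs_of_nonneg (by positivity : (0 : ℝ) ≤ (d : ℝ) ^ 2), div_eq_mul_inv]
    have h1 : |(μ d : ℝ)| ≤ 1 := by
      have := ArithmeticFunction.abs_moebius_le_one (n := d)
      exact_mod_cast this
    exact mul_le_of_le_one_left (by positivity) h1
  · rw [abs_zero]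
    positivity

lemma mf_summable (q : ℕ) : Summable (fun d => ‖mf q d‖) := by
  refine Summable.of_nonneg_of_le (fun _ => norm_nonneg _) (fun d => ?_)
    (Real.summable_nat_pow_inv.2 (by norm_num : 1 < 2))
  rw [Real.norm_eq_abs]
  exact mf_abs q d

lemma mf_prime (q p : ℕ) (hp : p.Prime) :
    ∑' e : ℕ, mf q (p ^ e) = if p ∣ 10 * q then 1 else 1 - 1 / (p : ℝ) ^ 2 := by
  rw [tsum_eq_sum (s := range 2)]
  · rw [Finset.sum_range_succ, Finset.sum_range_one, pow_zero, pow_one, mf_one]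
    unfold mf
    by_cases h : p ∣ 10 * q
    · rw [if_pos h, if_neg, add_zero]
      intro h'
      exact hp.one_lt.ne' (Nat.dvd_one.1 (by rw [← h']; exact Nat.dvd_gcd dvd_rfl h))
    · rw [if_neg h, if_pos ((Nat.Prime.coprime_iff_not_dvd hp).2 h),
        ArithmeticFunction.moebius_apply_prime hp]
      push_cast
      ring
  · intro e he
    rw [Finset.mem_range, not_lt] at he
    unfold mf
    split_ifs
    · rw [ArithmeticFunction.moebius_eq_zero_of_not_squarefree]
      · simp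
      · intro hsq
        have h2 := (Nat.squarefree_pow_iff hp.ne_one (by omega : e ≠ 0)).1 hsq
        omega
    · rfl

lemma prod_split (q z : ℕ) (hq : q.Coprime 10) (hz : q < z) :
    (∏ p ∈ Nat.primesBelow z, ∑' e : ℕ, mf q (p ^ e)) *
      ∏ p ∈ q.primeFactors, (1 - 1 / (p : ℝ) ^ 2) =
    ∏ p ∈ (range z).filter (fun p => p.Prime ∧ p ≠ 2 ∧ p ≠ 5), (1 - 1 / (p : ℝ) ^ 2) := by
  have hq0 : q ≠ 0 := by
    rintro rfl
    norm_num at hq
  have h1 : ∏ p ∈ Nat.primesBelow z, ∑' e : ℕ, mf q (p ^ e) =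
      ∏ p ∈ Nat.primesBelow z, if p ∣ 10 * q then 1 else 1 - 1 / (p : ℝ) ^ 2 := by
    refine Finset.prod_congr rfl fun p hp => ?_
    exact mf_prime q p (Nat.prime_of_mem_primesBelow hp)
  rw [h1, Finset.prod_ite, Finset.prod_const_one, one_mul]
  have h2 : (range z).filter (fun p => p.Prime ∧ p ≠ 2 ∧ p ≠ 5) =
      (Nat.primesBelow z).filter (fun p => ¬ p ∣ 10 * q) ∪ q.primeFactors := by
    ext p
    simp only [Finset.mem_filter, Finset.mem_range, Finset.mem_union, Nat.mem_primesBelow,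
      Nat.mem_primeFactors]
    constructor
    · rintro ⟨h3, h4, h5, h6⟩
      by_cases h7 : p ∣ q
      · exact Or.inr ⟨h4, h7, hq0⟩
      · refine Or.inl ⟨⟨h3, h4⟩, fun h8 => ?_⟩
        rcases (Nat.Prime.dvd_mul h4).1 h8 with h9 | h9
        · rw [show (10 : ℕ) = 2 * 5 by norm_num, Nat.Prime.dvd_mul h4,
            Nat.prime_dvd_prime_iff_eq h4 Nat.prime_two,
            Nat.prime_dvd_prime_iff_eq h4 Nat.prime_five] at h9
          rcases h9 with h9 | h9
          · exact h5 h9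
          · exact h6 h9
        · exact h7 h9
    · rintro (⟨⟨h3, h4⟩, h5⟩ | ⟨h4, h5, -⟩)
      · refine ⟨h3, h4, ?_, ?_⟩
        · rintro rfl
          exact h5 (Dvd.dvd.mul_right (by norm_num) q)
        · rintro rfl
          exact h5 (Dvd.dvd.mul_right (by norm_num) q)
      · refine ⟨(Nat.le_of_dvd (Nat.pos_of_ne_zero hq0) h5).trans_lt hz, h4, ?_, ?_⟩
        · rintro rfl
          have := Nat.dvd_gcd h5 (by norm_num : 2 ∣ 10)
          rw [hq] at this
          norm_num at this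
        · rintro rfl
          have := Nat.dvd_gcd h5 (by norm_num : 5 ∣ 10)
          rw [hq] at this
          norm_num at this
  rw [h2, Finset.prod_union]
  rw [Finset.disjoint_left]
  intro p hp hp'
  rw [Finset.mem_filter] at hp
  exact hp.2 (Dvd.dvd.mul_left (Nat.dvd_of_mem_primeFactors hp') 10)

lemma mf_tsum (q : ℕ) (hq : q.Coprime 10) :
    ∑' d : ℕ, mf q d =
      25 / (3 * Real.pi ^ 2) * ∏ p ∈ q.primeFactors, (1 - 1 / (p : ℝ) ^ 2)⁻¹ := by
  have h1 := EulerProduct.eulerProduct (mf_one q) (fun h => mf_mul q h) (mf_summable q) (mf_zero q)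
  have h2 := h1.mul_const (∏ p ∈ q.primeFactors, (1 - 1 / (p : ℝ) ^ 2))
  have h3 : Tendsto (fun z : ℕ => ∏ p ∈ (range z).filter (fun p => p.Prime ∧ p ≠ 2 ∧ p ≠ 5),
      (1 - 1 / (p : ℝ) ^ 2)) atTop
      (𝓝 ((∑' d : ℕ, mf q d) * ∏ p ∈ q.primeFactors, (1 - 1 / (p : ℝ) ^ 2))) := by
    refine h2.congr' ?_
    filter_upwards [eventually_ge_atTop (q + 6)] with z hz
    exact prod_split q z hq (by omega)
  have h4 := tendsto_nhds_unique h3 Pool.Agent.Helper10.SQ.sqC3
  have h5 : (∏ p ∈ q.primeFactors, (1 - 1 / (p : ℝ) ^ 2)) *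
      ∏ p ∈ q.primeFactors, (1 - 1 / (p : ℝ) ^ 2)⁻¹ = 1 := by
    rw [← Finset.prod_mul_distrib]
    refine Finset.prod_eq_one fun p hp => ?_
    have hp2 : (2 : ℝ) ≤ p := by exact_mod_cast (Nat.prime_of_mem_primeFactors hp).two_le
    have h6 : (1 : ℝ) / (p : ℝ) ^ 2 < 1 := by
      rw [div_lt_one (by positivity)]
      nlinarith
    exact mul_inv_cancel₀ (by linarith)
  rw [← h4, mul_assoc, h5, mul_one]

theorem sw5 (q Z : ℕ) (hq : q.Coprime 10) (hZ : 1 ≤ Z) :
    |(∑ d ∈ (Icc 1 Z).filter (fun d => d.Coprime 10 ∧ d.Coprime q), (μ d : ℝ) / (d : ℝ) ^ 2) -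
      25 / (3 * Real.pi ^ 2) * ∏ p ∈ q.primeFactors, (1 - 1 / (p : ℝ) ^ 2)⁻¹| ≤ 2 / (Z : ℝ) := by
  rw [← mf_tsum q hq]
  have h1 : ∑ d ∈ (Icc 1 Z).filter (fun d => d.Coprime 10 ∧ d.Coprime q),
      (μ d : ℝ) / (d : ℝ) ^ 2 = ∑ d ∈ range (Z + 1), mf q d := by
    rw [Finset.sum_filter, Finset.sum_range_succ', mf_zero, add_zero]
    rw [Finset.range_eq_Ico, Finset.sum_Ico_add' (fun d => mf q d) 0 Z 1, zero_add]
    have h2 : Ico 1 (Z + 1) = Icc 1 Z := by
      ext x
      simp only [Finset.mem_Ico, Finset.mem_Icc]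
      omega
    rw [h2]
    refine Finset.sum_congr rfl fun d _ => ?_
    unfold mf
    congr 1
    exact propext Nat.coprime_mul_iff_right.symm
  rw [h1]
  have hs : Summable (fun d => mf q d) := (mf_summable q).of_norm
  have ht := hs.hasSum.tendsto_sum_nat
  have ht2 : Tendsto (fun N : ℕ => |∑ d ∈ range (Z + 1), mf q d - ∑ d ∈ range N, mf q d|) atTop
      (𝓝 |∑ d ∈ range (Z + 1), mf q d - ∑' d : ℕ, mf q d|) := (ht.const_sub _).abs
  refine le_of_tendsto ht2 ?_
  filter_upwards [eventually_ge_atTop (Z + 1)] with N hN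
  rw [abs_sub_comm, ← Finset.sum_Ico_eq_sub _ hN]
  refine (Finset.abs_sum_le_sum_abs _ _).trans ?_
  refine (Finset.sum_le_sum fun d _ => mf_abs q d).trans ?_
  have h3 := sum_Ioo_inv_sq_le (α := ℝ) Z N
  have h4 : Ico (Z + 1) N = Ioo Z N := by
    ext x
    simp only [Finset.mem_Ico, Finset.mem_Ioo]
    omega
  rw [h4]
  refine h3.trans ?_
  have hZ0 : (0 : ℝ) < Z := by exact_mod_cast hZ
  gcongr
  linarith

end Pool.Agent.Helper32.SW
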