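import Mathlib

/-! SW (MP_540de1_nt): the truncated Moebius identity for one number. -/

namespace Pool.Agent.Helper32.SW

open Finset
open scoped ArithmeticFunction.Moebius

/-- the divisors `d` with `d ^ 2 ∣ b ^ 2 * a`, `a` squarefree, are the divisors of `b` -/
lemma sq_dvd_iff {a b : ℕ} (hb : 0 < b) (ha : Squarefree a) (d : ℕ) :
    d ^ 2 ∣ b ^ 2 * a ↔ d ∣ b := by
  constructor
  · intro h
    obtain ⟨m, k, hmk, hd, hb'⟩ := Nat.exists_coprime d b
    have hg0 : 0 < Nat.gcd d b := Nat.gcd_pos_of_pos_right d hb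
    generalize Nat.gcd d b = g at hd hb' hg0
    subst hd
    subst hb'
    have h1 : m ^ 2 * g ^ 2 ∣ k ^ 2 * a * g ^ 2 := by
      have e2 : k ^ 2 * a * g ^ 2 = (k * g) ^ 2 * a := by ring
      rw [← mul_pow, e2]
      exact h
    have h2 : m ^ 2 ∣ k ^ 2 * a := Nat.dvd_of_mul_dvd_mul_right (by positivity) h1
    have h3 : m ^ 2 ∣ a := Nat.Coprime.dvd_of_dvd_mul_left (Nat.Coprime.pow 2 2 hmk) h2
    have h4 : m = 1 := by
      have := ha m (by rw [← pow_two]; exact h3)
      exact Nat.isUnit_iff.1 this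
    rw [h4, one_mul]
    exact Dvd.intro_left k rfl
  · intro h
    exact Dvd.dvd.mul_right (pow_dvd_pow_of_dvd h 2) a

open Classical in
theorem sw3 (P Z D : ℕ) (hP : 0 < P) (h4 : ¬ 4 ∣ P) (h25 : ¬ 25 ∣ P) (hZ : 1 ≤ Z) :
    |(if Squarefree P then (1 : ℝ) else 0) -
      (∑ d ∈ (Icc 1 Z).filter (fun d => d.Coprime 10 ∧ d ^ 2 ∣ P), (μ d : ℝ))| ≤
    (∑ s ∈ (Ioc Z D).filter (fun s => s.Coprime 10 ∧ s ^ 2 ∣ P),
      (1 + (((Icc 1 Z).filter (fun d => d ∣ s)).card : ℝ))) +
    (if ∃ d : ℕ, D ≤ d ∧ d ^ 2 ∣ P then 1 + (Z : ℝ) else 0) := by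
  obtain ⟨a, b, hab, ha⟩ := Nat.sq_mul_squarefree P
  have hb : 0 < b := by
    rcases Nat.eq_zero_or_pos b with h | h
    · rw [h] at hab
      simp at hab
      omega
    · exact h
  have key : ∀ d : ℕ, d ^ 2 ∣ P ↔ d ∣ b := fun d => by
    rw [← hab]
    exact sq_dvd_iff hb ha d
  have hb10 : b.Coprime 10 := by
    rw [show (10 : ℕ) = 2 * 5 by norm_num]
    apply Nat.Coprime.mul_right
    · rw [Nat.coprime_comm, Nat.Prime.coprime_iff_not_dvd Nat.prime_two]
      intro h
      exact h4 ((key 2).2 h)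
    · rw [Nat.coprime_comm, Nat.Prime.coprime_iff_not_dvd Nat.prime_five]
      intro h
      exact h25 ((key 5).2 h)
  have hsq : Squarefree P ↔ b = 1 := by
    constructor
    · intro h
      exact Nat.isUnit_iff.1 (h b (by rw [← pow_two]; exact (key b).2 dvd_rfl))
    · intro h
      rw [← hab, h, one_pow, one_mul]
      exact ha
  have hfil : (Icc 1 Z).filter (fun d => d.Coprime 10 ∧ d ^ 2 ∣ P) =
      (Icc 1 Z).filter (fun d => d ∣ b) := by
    ext d
    simp only [Finset.mem_filter, key]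
    constructor
    · rintro ⟨h1, -, h2⟩
      exact ⟨h1, h2⟩
    · rintro ⟨h1, h2⟩
      exact ⟨h1, Nat.Coprime.coprime_dvd_left h2 hb10, h2⟩
  have hnn : ∀ s : ℕ, (0 : ℝ) ≤ 1 + (((Icc 1 Z).filter (fun d => d ∣ s)).card : ℝ) :=
    fun s => by positivity
  have hR : (0 : ℝ) ≤ ∑ s ∈ (Ioc Z D).filter (fun s => s.Coprime 10 ∧ s ^ 2 ∣ P),
      (1 + (((Icc 1 Z).filter (fun d => d ∣ s)).card : ℝ)) := Finset.sum_nonneg fun s _ => hnn s
  have hI : (0 : ℝ) ≤ (if ∃ d : ℕ, D ≤ d ∧ d ^ 2 ∣ P then 1 + (Z : ℝ) else 0) := by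
    split_ifs
    · positivity
    · exact le_rfl
  rw [hfil]
  rcases le_or_gt b Z with hbZ | hbZ
  · have h1 : (Icc 1 Z).filter (fun d => d ∣ b) = b.divisors := by
      ext d
      simp only [Finset.mem_filter, Finset.mem_Icc, Nat.mem_divisors]
      constructor
      · rintro ⟨-, h2⟩
        exact ⟨h2, hb.ne'⟩
      · rintro ⟨h2, -⟩
        exact ⟨⟨Nat.pos_of_dvd_of_pos h2 hb, (Nat.le_of_dvd hb h2).trans hbZ⟩, h2⟩
    have h2 : ∑ d ∈ b.divisors, (μ d : ℝ) = if b = 1 then 1 else 0 := by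
      have h3 : ∑ d ∈ b.divisors, μ d = if b = 1 then 1 else 0 := by
        rw [← ArithmeticFunction.coe_mul_zeta_apply, ArithmeticFunction.moebius_mul_coe_zeta,
          ArithmeticFunction.one_apply]
      have h4 : ((∑ d ∈ b.divisors, μ d : ℤ) : ℝ) = ((if b = 1 then 1 else 0 : ℤ) : ℝ) := by
        rw [h3]
      push_cast at h4
      exact h4
    rw [h1, h2]
    have h5 : (if Squarefree P then (1 : ℝ) else 0) - (if b = 1 then 1 else 0) = 0 := by
      by_cases hb1 : b = 1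
      · rw [if_pos (hsq.2 hb1), if_pos hb1, sub_self]
      · rw [if_neg (fun h => hb1 (hsq.1 h)), if_neg hb1, sub_self]
    rw [h5, abs_zero]
    exact add_nonneg hR hI
  · have h1 : |(if Squarefree P then (1 : ℝ) else 0) -
        (∑ d ∈ (Icc 1 Z).filter (fun d => d ∣ b), (μ d : ℝ))| ≤
        1 + (((Icc 1 Z).filter (fun d => d ∣ b)).card : ℝ) := by
      refine (abs_sub _ _).trans (add_le_add ?_ ?_)
      · split_ifs
        · rw [abs_one]
        · rw [abs_zero]
          exact zero_le_one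
      · refine (Finset.abs_sum_le_sum_abs _ _).trans ?_
        rw [← nsmul_one, ← Finset.sum_const]
        refine Finset.sum_le_sum fun d _ => ?_
        have := ArithmeticFunction.abs_moebius_le_one (n := d)
        exact_mod_cast this
    refine h1.trans ?_
    rcases le_or_gt b D with hbD | hbD
    · have h2 : b ∈ (Ioc Z D).filter (fun s => s.Coprime 10 ∧ s ^ 2 ∣ P) := by
        rw [Finset.mem_filter, Finset.mem_Ioc]
        exact ⟨⟨hbZ, hbD⟩, hb10, (key b).2 dvd_rfl⟩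
      have h3 := Finset.single_le_sum (f := fun s => (1 + (((Icc 1 Z).filter
        (fun d => d ∣ s)).card : ℝ))) (fun s _ => hnn s) h2
      linarith
    · rw [if_pos ⟨b, hbD.le, (key b).2 dvd_rfl⟩]
      have h2 : (((Icc 1 Z).filter (fun d => d ∣ b)).card : ℝ) ≤ Z := by
        have := Finset.card_filter_le (Icc 1 Z) (fun d => d ∣ b)
        rw [Nat.card_Icc, Nat.add_sub_cancel] at this
        exact_mod_cast this
      linarith

end Pool.Agent.Helper32.SW
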